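import Pool.Agent.W172.MK.Stm

set_option autoImplicit false

open MeasureTheory ProbabilityTheory Filter Topology

namespace Pool.Agent.W382.MK

open Pool.Agent.W172.MK

section
variable {n M : ℕ} {eps : Fin (M + 1) → V n → ℝ}

theorem one_le_M (hg : Good eps) : 1 ≤ M := by
  by_contra h
  have hM : M = 0 := by omega
  subst hM
  have h1 : ∑ y : Fin 1, eps y 0 = 0 := hg.mean 0
  rw [Fin.sum_univ_one] at h1
  rcases hg.sq 0 0 with h2 | h2 <;> rw [h1] at h2 <;> norm_num at h2

theorem NT_bd (hB : P_BND) (hg : Good eps) (T : ℕ) (x z : St n M) : |NT eps T x z| ≤ 3 := by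
  obtain ⟨h1, h2, _⟩ := hB n M eps hg x z
  unfold NT
  refine (Finset.abs_sum_le_sum_abs _ _).trans (le_trans ?_ h2)
  exact h1.sum_le_tsum _ (fun _ _ => abs_nonneg _)

theorem NT_tendsto (hB : P_BND) (hg : Good eps) (x z : St n M) :
    Tendsto (fun T => NT eps T x z) atTop (𝓝 (∑' t, term eps x z t)) := by
  obtain ⟨h1, _, _⟩ := hB n M eps hg x z
  exact h1.of_abs.hasSum.tendsto_sum_nat

theorem NT_meas1 (hT : P_TM) (T : ℕ) (x : St n M) : Measurable (fun z => NT eps T x z) := by
  unfold NT
  refine Finset.measurable_sum _ fun t _ => ?_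
  exact ((hT n M eps).1 t).comp measurable_prodMk_left

theorem NT_meas2 (hT : P_TM) (T : ℕ) (y : St n M) : Measurable (fun z => NT eps T z y) := by
  unfold NT
  refine Finset.measurable_sum _ fun t _ => ?_
  exact ((hT n M eps).1 t).comp measurable_prodMk_right

theorem ae_dis (hA : P_AE) (hM : 1 ≤ M) (y : ℕ → Fin (M + 1)) :
    ∀ᵐ z ∂(muSt n M), ∃ᶠ t in atTop, y t ≠ z.2 t := by
  unfold muSt
  exact Measure.quasiMeasurePreserving_snd.ae (hA M hM y)

theorem pp_eq1 (hS : P_SAME) (hg : Good eps) (x z : St n M) (h : ∃ᶠ t in atTop, x.2 t ≠ z.2 t) :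
    pp eps x z = 1 + ∑' t, term eps x z t := by
  unfold pp
  by_cases hxz : x.1 = z.1
  · rw [if_pos hxz, hS n M eps hg x z hxz h]
    norm_num
  · rw [if_neg hxz]

theorem pp_bd (hB : P_BND) (hg : Good eps) (x z : St n M) : 0 ≤ pp eps x z ∧ pp eps x z ≤ 2 := by
  unfold pp
  by_cases hxz : x.1 = z.1
  · rw [if_pos hxz]
    norm_num
  · rw [if_neg hxz]
    obtain ⟨h1, _, h3⟩ := hB n M eps hg x z
    have h4 : |∑' t, term eps x z t| ≤ 3 / 5 := by
      refine le_trans ?_ (h3 hxz)
      have := norm_tsum_le_tsum_norm (f := fun t => term eps x z t) h1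
      exact this
    rw [abs_le] at h4
    constructor <;> linarith [h4.1, h4.2]

theorem int_NT1 (hT : P_TM) (hB : P_BND) (hg : Good eps) (T : ℕ) (x : St n M) :
    Integrable (fun z => NT eps T x z) (muSt n M) :=
  (integrable_const (3 : ℝ)).mono' (NT_meas1 hT T x).aestronglyMeasurable
    (Eventually.of_forall fun z => NT_bd hB hg T x z)

theorem int_NT2 (hT : P_TM) (hB : P_BND) (hg : Good eps) (T : ℕ) (y : St n M) :
    Integrable (fun z => NT eps T z y) (muSt n M) :=
  (integrable_const (3 : ℝ)).mono' (NT_meas2 hT T y).aestronglyMeasurable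
    (Eventually.of_forall fun z => NT_bd hB hg T z y)

theorem int_NT3 (hT : P_TM) (hB : P_BND) (hg : Good eps) (T : ℕ) (x y : St n M) :
    Integrable (fun z => NT eps T x z * NT eps T z y) (muSt n M) :=
  (integrable_const (9 : ℝ)).mono' ((NT_meas1 hT T x).mul (NT_meas2 hT T y)).aestronglyMeasurable
    (Eventually.of_forall fun z => by
      rw [norm_mul]
      have h1 := NT_bd hB hg T x z
      have h2 := NT_bd hB hg T z y
      calc ‖NT eps T x z‖ * ‖NT eps T z y‖ ≤ 3 * 3 :=
            mul_le_mul h1 h2 (norm_nonneg _) (by norm_num)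
        _ = 9 := by norm_num)

theorem row (hA : P_AE) (hT : P_TM) (hB : P_BND) (hS : P_SAME) (hO : P_ORTH) (hg : Good eps)
    (x : St n M) : ∫ z, pp eps x z ∂(muSt n M) = 1 := by
  have hM := one_le_M hg
  have e : ∫ z, pp eps x z ∂(muSt n M) = ∫ z, (1 + ∑' t, term eps x z t) ∂(muSt n M) := by
    refine integral_congr_ae ?_
    filter_upwards [ae_dis hA hM x.2] with z hz
    exact pp_eq1 hS hg x z hz
  have h1 : Tendsto (fun T => ∫ z, (1 + NT eps T x z) ∂(muSt n M)) atTop
      (𝓝 (∫ z, (1 + ∑' t, term eps x z t) ∂(muSt n M))) := by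
    refine tendsto_integral_of_dominated_convergence (fun _ => 4) ?_ (integrable_const _) ?_ ?_
    · intro T
      exact (measurable_const.add (NT_meas1 hT T x)).aestronglyMeasurable
    · intro T
      refine Eventually.of_forall fun z => ?_
      have := NT_bd hB hg T x z
      refine (norm_add_le _ _).trans ?_
      rw [norm_one]
      have h3 : ‖NT eps T x z‖ ≤ 3 := this
      linarith
    · refine Eventually.of_forall fun z => ?_
      exact (NT_tendsto hB hg x z).const_add 1
  have h2 : ∀ T, ∫ z, (1 + NT eps T x z) ∂(muSt n M) = 1 := by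
    intro T
    rw [integral_add (integrable_const _) (int_NT1 hT hB hg T x), (hO n M eps hg T x x).2.1]
    simp
  rw [e]
  simp only [h2] at h1
  exact tendsto_nhds_unique h1 tendsto_const_nhds

theorem pp_eq2 (hS : P_SAME) (hg : Good eps) (z y : St n M) (h : ∃ᶠ t in atTop, y.2 t ≠ z.2 t) :
    pp eps z y = 1 + ∑' t, term eps z y t :=
  pp_eq1 hS hg z y (h.mono fun _ ht => ht.symm)

theorem col (hA : P_AE) (hT : P_TM) (hB : P_BND) (hS : P_SAME) (hO : P_ORTH) (hg : Good eps)
    (y : St n M) : ∫ z, pp eps z y ∂(muSt n M) = 1 := by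
  have hM := one_le_M hg
  have e : ∫ z, pp eps z y ∂(muSt n M) = ∫ z, (1 + ∑' t, term eps z y t) ∂(muSt n M) := by
    refine integral_congr_ae ?_
    filter_upwards [ae_dis hA hM y.2] with z hz
    exact pp_eq2 hS hg z y hz
  have h1 : Tendsto (fun T => ∫ z, (1 + NT eps T z y) ∂(muSt n M)) atTop
      (𝓝 (∫ z, (1 + ∑' t, term eps z y t) ∂(muSt n M))) := by
    refine tendsto_integral_of_dominated_convergence (fun _ => 4) ?_ (integrable_const _) ?_ ?_
    · intro T
      exact (measurable_const.add (NT_meas2 hT T y)).aestronglyMeasurable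
    · intro T
      refine Eventually.of_forall fun z => ?_
      have := NT_bd hB hg T z y
      refine (norm_add_le _ _).trans ?_
      rw [norm_one]
      have h3 : ‖NT eps T z y‖ ≤ 3 := this
      linarith
    · refine Eventually.of_forall fun z => ?_
      exact (NT_tendsto hB hg z y).const_add 1
  have h2 : ∀ T, ∫ z, (1 + NT eps T z y) ∂(muSt n M) = 1 := by
    intro T
    rw [integral_add (integrable_const _) (int_NT2 hT hB hg T y), (hO n M eps hg T y y).2.2]
    simp
  rw [e]
  simp only [h2] at h1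
  exact tendsto_nhds_unique h1 tendsto_const_nhds

theorem sqr (hA : P_AE) (hT : P_TM) (hB : P_BND) (hS : P_SAME) (hO : P_ORTH) (hg : Good eps)
    (x y : St n M) : ∫ z, pp eps x z * pp eps z y ∂(muSt n M) = 1 := by
  have hM := one_le_M hg
  have e : ∫ z, pp eps x z * pp eps z y ∂(muSt n M) =
      ∫ z, (1 + ∑' t, term eps x z t) * (1 + ∑' t, term eps z y t) ∂(muSt n M) := by
    refine integral_congr_ae ?_
    filter_upwards [ae_dis hA hM x.2, ae_dis hA hM y.2] with z hz1 hz2
    rw [pp_eq1 hS hg x z hz1, pp_eq2 hS hg z y hz2]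
  have h1 : Tendsto (fun T => ∫ z, (1 + NT eps T x z) * (1 + NT eps T z y) ∂(muSt n M)) atTop
      (𝓝 (∫ z, (1 + ∑' t, term eps x z t) * (1 + ∑' t, term eps z y t) ∂(muSt n M))) := by
    refine tendsto_integral_of_dominated_convergence (fun _ => 16) ?_ (integrable_const _) ?_ ?_
    · intro T
      exact ((measurable_const.add (NT_meas1 hT T x)).mul
        (measurable_const.add (NT_meas2 hT T y))).aestronglyMeasurable
    · intro T
      refine Eventually.of_forall fun z => ?_
      have h3 : ‖1 + NT eps T x z‖ ≤ 4 := by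
        refine (norm_add_le _ _).trans ?_
        have : ‖NT eps T x z‖ ≤ 3 := NT_bd hB hg T x z
        rw [norm_one]
        linarith
      have h4 : ‖1 + NT eps T z y‖ ≤ 4 := by
        refine (norm_add_le _ _).trans ?_
        have : ‖NT eps T z y‖ ≤ 3 := NT_bd hB hg T z y
        rw [norm_one]
        linarith
      rw [norm_mul]
      calc _ ≤ 4 * 4 := mul_le_mul h3 h4 (norm_nonneg _) (by norm_num)
        _ = 16 := by norm_num
    · refine Eventually.of_forall fun z => ?_
      exact ((NT_tendsto hB hg x z).const_add 1).mul ((NT_tendsto hB hg z y).const_add 1)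
  have h2 : ∀ T, ∫ z, (1 + NT eps T x z) * (1 + NT eps T z y) ∂(muSt n M) = 1 := by
    intro T
    have e2 : (fun z => (1 + NT eps T x z) * (1 + NT eps T z y)) =
        fun z => ((1 + NT eps T x z) + NT eps T z y) + NT eps T x z * NT eps T z y := by
      funext z
      ring
    have i1 := int_NT1 hT hB hg T x
    have i2 := int_NT2 hT hB hg T y
    have i3 := int_NT3 hT hB hg T x y
    have i0 : Integrable (fun _ : St n M => (1 : ℝ)) (muSt n M) := integrable_const _
    have i4 : Integrable (fun z => 1 + NT eps T x z) (muSt n M) := i0.add i1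
    have i5 : Integrable (fun z => 1 + NT eps T x z + NT eps T z y) (muSt n M) := i4.add i2
    rw [e2, integral_add i5 i3, integral_add i4 i2,
      integral_add i0 i1, (hO n M eps hg T x y).1, (hO n M eps hg T x y).2.1,
      (hO n M eps hg T x y).2.2]
    simp
  rw [e]
  simp only [h2] at h1
  exact tendsto_nhds_unique h1 tendsto_const_nhds

end

theorem ker : P_UNIF → P_AE → P_TM → P_BND → P_SAME → P_ORTH → P_KER := by
  intro _ hA hT hB hS hO n M eps hg
  exact
    { meas := (hT n M eps).2 hg
      nonneg := fun x y => (pp_bd hB hg x y).1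
      bdd := ⟨2, fun x y => (pp_bd hB hg x y).2⟩
      row := row hA hT hB hS hO hg
      col := col hA hT hB hS hO hg
      sq := sqr hA hT hB hS hO hg }

end Pool.Agent.W382.MK
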